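import Pool.Agent.H269.RT.Red

/-!
# The number of subsets with the target sum is the number of satisfying assignments
-/

set_option autoImplicit false

namespace Pool.Agent.H269.RT

open Pool.Agent.NPC Pool.Agent.NPC.Cnt

variable (φ : CNF ℕ)

/-- the items of an assignment -/
def selOf (A : Finset ℕ) : Finset It := (its φ).toFinset.filter (fun i =>
  (bif i.1 then decide (decide (i.2.2.1 ∈ A) = i.2.1)
    else (2 ^ (vl φ).length - cc φ A i.2.2.1).testBit i.2.2.2) = true)

/-- the assignment of a set of items -/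
def asg (S : Finset It) : Finset ℕ := (vars φ).filter (fun v => lit v true ∈ S)

theorem lit_mem_its (v : ℕ) (b : Bool) : lit v b ∈ its φ ↔ v ∈ vars φ := by
  rw [mem_its]
  constructor
  · rintro (⟨v', hv, b', h⟩ | ⟨j, _, k, _, h⟩)
    · simp only [lit, Prod.mk.injEq, and_true, true_and] at h
      rw [h.2]; exact hv
    · simp [lit, slk] at h
  · intro h
    exact Or.inl ⟨v, h, b, rfl⟩

theorem slk_mem_its (j k : ℕ) : slk j k ∈ its φ ↔ j < φ.length ∧ k < (vl φ).length := by
  rw [mem_its]
  constructor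
  · rintro (⟨v', hv, b', h⟩ | ⟨j', hj, k', hk, h⟩)
    · simp [lit, slk] at h
    · simp only [slk, Prod.mk.injEq, true_and] at h
      rw [h.1, h.2]; exact ⟨hj, hk⟩
  · rintro ⟨h1, h2⟩
    exact Or.inr ⟨j, h1, k, h2, rfl⟩

theorem lit_mem_sel (A : Finset ℕ) (v : ℕ) (b : Bool) :
    lit v b ∈ selOf φ A ↔ v ∈ vars φ ∧ decide (v ∈ A) = b := by
  unfold selOf
  rw [Finset.mem_filter, List.mem_toFinset, lit_mem_its]
  exact and_congr_right fun _ => (decide_eq_true_iff (p := decide (v ∈ A) = b))

theorem slk_mem_sel (A : Finset ℕ) (j k : ℕ) :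
    slk j k ∈ selOf φ A ↔ (j < φ.length ∧ k < (vl φ).length) ∧
      (2 ^ (vl φ).length - cc φ A j).testBit k = true := by
  unfold selOf
  rw [Finset.mem_filter, List.mem_toFinset, slk_mem_its]
  simp [slk]

theorem mem_asg (S : Finset It) (v : ℕ) : v ∈ asg φ S ↔ v ∈ vars φ ∧ lit v true ∈ S := by
  unfold asg
  rw [Finset.mem_filter]

theorem satBy_iff (A : Finset ℕ) : SatBy A φ ↔ ∀ j < φ.length, 1 ≤ cc φ A j := by
  unfold SatBy cc
  constructor
  · intro h j hj
    obtain ⟨l, hl, h2⟩ := h _ (List.getElem_mem hj)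
    refine Finset.card_pos.2 ⟨l.2, Finset.mem_filter.2 ⟨?_, ?_⟩⟩
    · exact Pool.Agent.NPC.Cnt.mem_vars.2 ⟨_, List.getElem_mem hj, l.1, hl⟩
    · rw [List.getD_eq_getElem _ _ hj, ← h2]
      exact hl
  · intro h c hc
    obtain ⟨j, hj, rfl⟩ := List.getElem_of_mem hc
    obtain ⟨v, hv⟩ := Finset.card_pos.1 (h j hj)
    rw [Finset.mem_filter, List.getD_eq_getElem _ _ hj] at hv
    exact ⟨_, hv.2, rfl⟩

theorem digit_var {S : Finset It} (hS : S ⊆ (its φ).toFinset) {p : ℕ} (hp : p < (vl φ).length) :
    ∑ i ∈ S, dg φ i p = (if lit ((vl φ).getD p 0) true ∈ S then 1 else 0) +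
      (if lit ((vl φ).getD p 0) false ∈ S then 1 else 0) := by
  rw [sum_sub φ hS]
  have h1 : ∑ j ∈ Finset.range φ.length, ∑ k ∈ Finset.range (vl φ).length,
      (if slk j k ∈ S then dg φ (slk j k) p else 0) = 0 := by
    refine Finset.sum_eq_zero fun j _ => Finset.sum_eq_zero fun k hk => ?_
    rw [dg_slk φ _ _ _ (Finset.mem_range.1 hk), if_neg (show ¬ p = (vl φ).length + j by omega)]
    simp
  rw [h1, add_zero]
  rw [← ind_var φ hp (fun v => (if lit v true ∈ S then 1 else 0) +
      (if lit v false ∈ S then 1 else 0))]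
  refine Finset.sum_congr rfl fun v hv => ?_
  rw [dg_lit, dg_lit]
  simp only [hp, decide_true, cond_true]
  split_ifs <;> ring

theorem sum_eq_iff {S : Finset It} (hS : S ⊆ (its φ).toFinset) :
    ∑ i ∈ S, num φ i = tgt φ ↔
      (∀ v ∈ vars φ, ∀ b, lit v b ∈ S ↔ decide (v ∈ asg φ S) = b) ∧
      ∀ j < φ.length, 1 ≤ cc φ (asg φ S) j ∧ ∀ k < (vl φ).length,
        (slk j k ∈ S ↔ (2 ^ (vl φ).length - cc φ (asg φ S) j).testBit k = true) := by
  rw [sum_eq_tgt_iff φ hS]
  constructor
  · intro h
    have hA : ∀ v ∈ vars φ, ∀ b, lit v b ∈ S ↔ decide (v ∈ asg φ S) = b := by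
      intro v hv
      have hv' := hv
      rw [← vl_toFinset, List.mem_toFinset] at hv'
      obtain ⟨p, hp, hpv⟩ := List.getElem_of_mem hv'
      have h1 := h p (by omega)
      rw [digit_var φ hS hp, List.getD_eq_getElem _ _ hp, hpv] at h1
      unfold tg at h1
      rw [if_pos hp] at h1
      have h2 : v ∈ asg φ S ↔ lit v true ∈ S := by rw [mem_asg, and_iff_right hv]
      intro b
      by_cases h3 : lit v true ∈ S
      · have h4 : lit v false ∉ S := by
          intro h4
          rw [if_pos h3, if_pos h4] at h1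
          omega
        rw [decide_eq_true (h2.2 h3)]
        cases b
        · simp [h4]
        · simp [h3]
      · have h4 : lit v false ∈ S := by
          by_contra h4
          rw [if_neg h3, if_neg h4] at h1
          omega
        rw [decide_eq_false (fun h5 => h3 (h2.1 h5))]
        cases b
        · simp [h4]
        · simp [h3]
    refine ⟨hA, fun j hj => ?_⟩
    have h2 := (digits_of φ hS (asg φ S) hA).2 j hj
    rw [h _ (by omega)] at h2
    unfold tg at h2
    rw [if_neg (by omega)] at h2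
    have h3 : ∑ k ∈ Finset.range (vl φ).length, (decide (slk j k ∈ S)).toNat * 2 ^ k <
        2 ^ (vl φ).length := sum_lt_pow 2 _ (by omega) _ fun k _ => by
      have := Bool.toNat_le (decide (slk j k ∈ S))
      omega
    refine ⟨by omega, ?_⟩
    have h4 : ∑ k ∈ Finset.range (vl φ).length, (decide (slk j k ∈ S)).toNat * 2 ^ k =
        ∑ k ∈ Finset.range (vl φ).length,
          ((2 ^ (vl φ).length - cc φ (asg φ S) j).testBit k).toNat * 2 ^ k := by
      rw [sum_testBit, Nat.mod_eq_of_lt (by omega)]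
      omega
    have h5 := digits_unique 2 _ (by omega) _ _ (fun k _ => by
      have := Bool.toNat_le (decide (slk j k ∈ S))
      omega) (fun k _ => by
      have := Bool.toNat_le ((2 ^ (vl φ).length - cc φ (asg φ S) j).testBit k)
      omega) h4
    intro k hk
    have h6 := h5 k hk
    by_cases h7 : slk j k ∈ S
    · simp only [h7, decide_true, Bool.toNat_true] at h6
      simp only [h7, true_iff]
      cases h8 : (2 ^ (vl φ).length - cc φ (asg φ S) j).testBit k
      · rw [h8] at h6; simp at h6
      · rfl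
    · simp only [h7, decide_false, Bool.toNat_false] at h6
      simp only [h7, false_iff]
      intro h8
      rw [h8] at h6; simp at h6
  · rintro ⟨hA, hB⟩ p hp
    have h2 := digits_of φ hS (asg φ S) hA
    by_cases h : p < (vl φ).length
    · rw [h2.1 p h]
      unfold tg
      rw [if_pos h]
    · obtain ⟨j, rfl⟩ : ∃ j, p = (vl φ).length + j := ⟨p - (vl φ).length, by omega⟩
      have hj : j < φ.length := by omega
      rw [h2.2 j hj]
      unfold tg
      rw [if_neg h]
      have h3 : ∑ k ∈ Finset.range (vl φ).length, (decide (slk j k ∈ S)).toNat * 2 ^ k =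
          ∑ k ∈ Finset.range (vl φ).length,
            ((2 ^ (vl φ).length - cc φ (asg φ S) j).testBit k).toNat * 2 ^ k := by
        refine Finset.sum_congr rfl fun k hk => ?_
        have h4 := (hB j hj).2 k (Finset.mem_range.1 hk)
        have h5 : decide (slk j k ∈ S) = (2 ^ (vl φ).length - cc φ (asg φ S) j).testBit k := by
          rw [Bool.eq_iff_iff, decide_eq_true_eq]
          exact h4
        rw [h5]
      rw [h3, sum_testBit]
      have h6 := (hB j hj).1
      have h7 := cc_le φ (asg φ S) j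
      rw [Nat.mod_eq_of_lt (by omega)]
      omega

theorem asg_sel {A : Finset ℕ} (hA : A ⊆ vars φ) : asg φ (selOf φ A) = A := by
  ext v
  rw [mem_asg, lit_mem_sel]
  constructor
  · rintro ⟨_, _, h⟩
    exact of_decide_eq_true h
  · intro h
    exact ⟨hA h, hA h, decide_eq_true h⟩

/-- the number of sets of items with the target sum -/
theorem card_eq : ((its φ).toFinset.powerset.filter (fun S => ∑ i ∈ S, num φ i = tgt φ)).card =
    satCount φ := by
  unfold satCount
  refine Finset.card_nbij' (asg φ) (selOf φ) ?_ ?_ ?_ ?_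
  · intro S hS
    simp only [Finset.coe_filter, Finset.mem_powerset, Set.mem_ofPred_eq] at hS ⊢
    rw [sum_eq_iff φ hS.1] at hS
    refine ⟨Finset.filter_subset _ _, (satBy_iff φ _).2 fun j hj => (hS.2.2 j hj).1⟩
  · intro A hA
    simp only [Finset.coe_filter, Finset.mem_powerset, Set.mem_ofPred_eq] at hA ⊢
    have hsub : selOf φ A ⊆ (its φ).toFinset := Finset.filter_subset _ _
    refine ⟨hsub, ?_⟩
    rw [sum_eq_iff φ hsub, asg_sel φ hA.1]
    refine ⟨fun v hv b => ?_, fun j hj => ⟨(satBy_iff φ A).1 hA.2 j hj, fun k hk => ?_⟩⟩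
    · rw [lit_mem_sel, and_iff_right hv]
    · rw [slk_mem_sel, and_iff_right ⟨hj, hk⟩]
  · intro S hS
    simp only [Finset.coe_filter, Finset.mem_powerset, Set.mem_ofPred_eq] at hS
    rw [sum_eq_iff φ hS.1] at hS
    ext i
    by_cases hi : i ∈ its φ
    · rcases (mem_its φ).1 hi with ⟨v, hv, b, rfl⟩ | ⟨j, hj, k, hk, rfl⟩
      · rw [lit_mem_sel, hS.2.1 v hv, and_iff_right hv]
      · rw [slk_mem_sel, (hS.2.2 j hj).2 k hk, and_iff_right ⟨hj, hk⟩]
    · constructor
      · intro h
        exact absurd (List.mem_toFinset.1 ((Finset.filter_subset _ _) h)) hi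
      · intro h
        exact absurd (List.mem_toFinset.1 (hS.1 h)) hi
  · intro A hA
    simp only [Finset.coe_filter, Finset.mem_powerset, Set.mem_ofPred_eq] at hA
    exact asg_sel φ hA.1

/-- the same, with strings -/
theorem bsum_its : bsum (its φ).length (fun w =>
    (decide (dot ((its φ).map (num φ)) w = tgt φ)).toNat) = satCount φ := by
  rw [← card_eq, Finset.card_filter]
  rw [← bsum_sel (its φ) (its_nodup φ) (fun S => if ∑ i ∈ S, num φ i = tgt φ then 1 else 0)]
  refine bsum_congr fun w hw => ?_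
  rw [dot_eq (num φ) (its φ) w (its_nodup φ) hw]
  by_cases h : ∑ i ∈ selF (its φ) w, num φ i = tgt φ <;> simp [h]

end Pool.Agent.H269.RT
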