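import Pool.Agent.H527R3.Toda.CountP
import Pool.Agent.H527R2.GenPoly
import Pool.Agent.H578R2.Med.PP

/-!
# Counting subset sums and satisfying assignments
-/

set_option autoImplicit false

namespace Pool.Agent.H269.RT

open Pool.Agent.NPC Pool.Agent.NPC.Cnt

/-! ### remove repetitions -/

/-- remove repetitions -/
def nub {V : Type} [DecidableEq V] (l : List V) : List V :=
  l.foldr (fun v s => if v ∈ s then s else v :: s) []

theorem mem_nub {V : Type} [DecidableEq V] (l : List V) (v : V) : v ∈ nub l ↔ v ∈ l := by
  induction l with
  | nil => simp [nub]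
  | cons a l ih =>
    have e : nub (a :: l) = if a ∈ nub l then nub l else a :: nub l := rfl
    rw [e]
    split_ifs with h
    · rw [ih, List.mem_cons]
      constructor
      · exact Or.inr
      · rintro (rfl | h1)
        · exact ih.1 h
        · exact h1
    · rw [List.mem_cons, List.mem_cons, ih]

theorem nodup_nub {V : Type} [DecidableEq V] (l : List V) : (nub l).Nodup := by
  induction l with
  | nil => exact List.nodup_nil
  | cons a l ih =>
    have e : nub (a :: l) = if a ∈ nub l then nub l else a :: nub l := rfl
    rw [e]
    split_ifs with h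
    · exact ih
    · exact List.nodup_cons.2 ⟨h, ih⟩

theorem sz_nub {V : Type} [DecidableEq V] [TEnc V] (l : List V) : sz (nub l) ≤ sz l := by
  induction l with
  | nil => exact le_rfl
  | cons a l ih =>
    have e : nub (a :: l) = if a ∈ nub l then nub l else a :: nub l := rfl
    rw [e]
    split_ifs with h
    · rw [sz_list_cons]
      omega
    · rw [sz_list_cons, sz_list_cons]
      omega

theorem sz_drop_le {V : Type} [TEnc V] : ∀ (l : List V) (k : ℕ), sz (l.drop k) ≤ sz l
  | [], k => by simp
  | a :: l, 0 => by simp
  | a :: l, k + 1 => by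
    rw [List.drop_succ_cons, sz_list_cons]
    have := sz_drop_le l k
    omega

theorem nub_poly {V : Type} [DecidableEq V] [TEnc V] : Poly (fun l : List V => nub l) := by
  unfold nub
  refine NPC.Poly.foldr (l := fun l : List V => l) (s := fun _ => [])
    (F := fun _ v s => if v ∈ s then s else v :: s) NPC.Poly.id (NPC.Poly.const _) ?_
    Polynomial.X ?_
  · have e1 : Poly (fun q : List V × (V × List V) => q.2.1) :=
      NPC.Poly.fst (NPC.Poly.snd NPC.Poly.id)
    have e2 : Poly (fun q : List V × (V × List V) => q.2.2) :=
      NPC.Poly.snd (NPC.Poly.snd NPC.Poly.id)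
    exact NPC.Poly.ite (NPC.Poly.decide_mem e1 e2) e2 (NPC.Poly.cons e1 e2)
  · intro l k _
    rw [Polynomial.eval_X]
    exact (sz_nub (l.drop k)).trans (sz_drop_le l k)

/-- the variables of a formula, without repetitions -/
def vl (φ : CNF ℕ) : List ℕ := nub (φ.flatMap (fun c => c.map (fun l => l.2)))

theorem vl_toFinset (φ : CNF ℕ) : (vl φ).toFinset = vars φ := by
  ext v
  rw [List.mem_toFinset, Pool.Agent.NPC.Cnt.mem_vars]
  unfold vl
  rw [mem_nub, List.mem_flatMap]
  constructor
  · rintro ⟨c, hc, h⟩
    obtain ⟨l, hl, rfl⟩ := List.mem_map.1 h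
    exact ⟨c, hc, l.1, hl⟩
  · rintro ⟨c, hc, b, h⟩
    exact ⟨c, hc, List.mem_map.2 ⟨_, h, rfl⟩⟩

theorem vl_nodup (φ : CNF ℕ) : (vl φ).Nodup := nodup_nub _

theorem vl_poly : Poly vl := by
  unfold vl
  refine nub_poly.comp (NPC.Poly.flatMap (l := fun φ : CNF ℕ => φ)
    (F := fun _ c => c.map (fun l => l.2)) NPC.Poly.id ?_)
  exact NPC.Poly.map (l := fun q : CNF ℕ × List (Bool × ℕ) => q.2) (F := fun _ l => l.2)
    (NPC.Poly.snd NPC.Poly.id) (NPC.Poly.snd (NPC.Poly.snd NPC.Poly.id))

/-! ### Sums of selected elements -/

/-- the set selected from a list by a string -/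
def selF {V : Type} [DecidableEq V] : List V → List Bool → Finset V
  | [], _ => ∅
  | _ :: _, [] => ∅
  | a :: l, b :: w => if b = true then insert a (selF l w) else selF l w

theorem bsum_sel {V : Type} [DecidableEq V] : ∀ (l : List V), l.Nodup → ∀ (g : Finset V → ℕ),
    bsum l.length (fun w => g (selF l w)) = ∑ S ∈ l.toFinset.powerset, g S
  | [], _, g => by simp [bsum_zero, selF]
  | a :: l, hl, g => by
    rw [List.nodup_cons] at hl
    rw [List.length_cons, bsum_succ, List.toFinset_cons, Finset.sum_powerset_insert (by
      rw [List.mem_toFinset]; exact hl.1)]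
    have h1 : (fun w => g (selF (a :: l) (false :: w))) = fun w => g (selF l w) := by
      funext w
      simp [selF]
    have h2 : (fun w => g (selF (a :: l) (true :: w))) = fun w => g (insert a (selF l w)) := by
      funext w
      simp [selF]
    rw [h1, h2, bsum_sel l hl.2 g, bsum_sel l hl.2 (fun S => g (insert a S))]

/-- the sum of the selected elements of a list of numbers -/
def dot : List ℕ → List Bool → ℕ
  | [], _ => 0
  | _ :: _, [] => 0
  | a :: l, b :: w => (bif b then a else 0) + dot l w

theorem dot_eq {V : Type} [DecidableEq V] (f : V → ℕ) : ∀ (l : List V) (w : List Bool), l.Nodup →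
    w.length = l.length → dot (l.map f) w = ∑ i ∈ selF l w, f i
  | [], w, _, _ => by simp [dot, selF]
  | a :: l, [], _, h => by simp at h
  | a :: l, b :: w, hl, h => by
    rw [List.nodup_cons] at hl
    have ih := dot_eq f l w hl.2 (by simpa using h)
    rw [List.map_cons, dot, ih]
    cases b with
    | false => simp [selF]
    | true =>
      have hsub : ∀ (l : List V) (w : List Bool) (x : V), x ∈ selF l w → x ∈ l := by
        intro l
        induction l with
        | nil => intro w x h; simp [selF] at h
        | cons a l ih =>
          intro w x h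
          cases w with
          | nil => simp [selF] at h
          | cons b w =>
            unfold selF at h
            split_ifs at h
            · rw [Finset.mem_insert] at h
              rcases h with rfl | h
              · exact List.mem_cons_self
              · exact List.mem_cons_of_mem _ (ih w x h)
            · exact List.mem_cons_of_mem _ (ih w x h)
      simp only [selF, if_true, cond_true]
      rw [Finset.sum_insert (fun h => hl.1 (hsub _ _ _ h))]

theorem dot_le (l : List ℕ) : ∀ (w : List Bool), dot l w ≤ l.sum := by
  induction l with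
  | nil => intro w; simp [dot]
  | cons a l ih =>
    intro w
    cases w with
    | nil => simp [dot]
    | cons b w =>
      rw [dot, List.sum_cons]
      have := ih w
      cases b <;> simp <;> omega

/-- complements -/
theorem bsum_compl : ∀ (l : List ℕ) (g : ℕ → ℕ),
    bsum l.length (fun w => g (dot l w)) = bsum l.length (fun w => g (l.sum - dot l w))
  | [], g => by simp [bsum_zero, dot]
  | a :: l, g => by
    rw [List.length_cons, bsum_succ, bsum_succ, List.sum_cons]
    simp only [dot, cond_false, cond_true]
    have h1 := bsum_compl l (fun s => g (0 + s))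
    have h2 := bsum_compl l (fun s => g (a + s))
    rw [h1, h2, add_comm]
    congr 1
    · refine bsum_congr fun w _ => ?_
      have := dot_le l w
      congr 1
      omega
    · refine bsum_congr fun w _ => ?_
      have := dot_le l w
      congr 1
      omega

/-- the trick which counts exact sums -/
theorem count_trick (l : List ℕ) (t : ℕ) (h : l.sum ≤ 2 * t) :
    bsum l.length (fun w => (decide (dot l w ≤ t)).toNat) +
      bsum l.length (fun w => (decide (2 * t - l.sum + dot l w ≤ t)).toNat) =
    2 ^ l.length + bsum l.length (fun w => (decide (dot l w = t)).toNat) := by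
  have h1 : bsum l.length (fun w => (decide (2 * t - l.sum + dot l w ≤ t)).toNat) =
      bsum l.length (fun w => (decide (t ≤ dot l w)).toNat) := by
    rw [bsum_compl l (fun s => (decide (t ≤ s)).toNat)]
    refine bsum_congr fun w _ => ?_
    have := dot_le l w
    have : (2 * t - l.sum + dot l w ≤ t) ↔ (t ≤ l.sum - dot l w) := by omega
    simp [this]
  rw [h1, ← bsum_add]
  have h2 : 2 ^ l.length = bsum l.length (fun _ => 1) := by rw [bsum_const, mul_one]
  rw [h2, ← bsum_add]
  refine bsum_congr fun w _ => ?_
  rcases Nat.lt_trichotomy (dot l w) t with h | h | h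
  · simp [h.le, Nat.not_le.2 h, h.ne]
  · simp [h]
  · simp [h.le, Nat.not_le.2 h, h.ne']

theorem bsum_pos_zero : ∀ (l : List ℕ), (∀ a ∈ l, 0 < a) →
    bsum l.length (fun w => (decide (dot l w = 0)).toNat) = 1
  | [], _ => by simp [bsum_zero, dot]
  | a :: l, h => by
    rw [List.length_cons, bsum_succ]
    simp only [dot, cond_false, cond_true, zero_add]
    rw [bsum_pos_zero l (fun b hb => h b (List.mem_cons_of_mem _ hb))]
    have ha : 0 < a := h a List.mem_cons_self
    have e : ∀ w : List Bool, decide (a + dot l w = 0) = false := by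
      intro w
      rw [decide_eq_false_iff_not]
      omega
    have e' : bsum l.length (fun w => (decide (a + dot l w = 0)).toNat) = 0 := by
      simp only [e, Bool.toNat_false, bsum_const, mul_zero]
    refine Eq.trans (congrArg (1 + ·) e') rfl

/-- the number of subsets with sum at most the threshold, for the list of the reduction -/
theorem count_final (l : List ℕ) (t : ℕ) (h : l.sum ≤ 2 * t) (hpos : ∀ a ∈ l, 0 < a) :
    bsum ((2 * t + 1) :: (2 * (2 * t - l.sum) + 1) :: l.map (fun a => 2 * a)).length
      (fun w => (decide (dot ((2 * t + 1) :: (2 * (2 * t - l.sum) + 1) :: l.map (fun a => 2 * a)) w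
        ≤ 2 * t + 1)).toNat) =
    2 ^ l.length + bsum l.length (fun w => (decide (dot l w = t)).toNat) + 1 := by
  have hd : ∀ w : List Bool, dot (l.map (fun a => 2 * a)) w = 2 * dot l w := by
    clear h hpos
    induction l with
    | nil => intro w; simp [dot]
    | cons a l ih =>
      intro w
      cases w with
      | nil => simp [dot]
      | cons b w =>
        rw [List.map_cons, dot, dot, ih w]
        cases b <;> simp
        ring
  rw [List.length_cons, List.length_cons, bsum_succ, bsum_succ, bsum_succ, List.length_map]
  simp only [dot, cond_false, cond_true, zero_add, hd]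
  have e1 : ∀ w : List Bool, (decide (2 * dot l w ≤ 2 * t + 1)).toNat =
      (decide (dot l w ≤ t)).toNat := by
    intro w
    have : (2 * dot l w ≤ 2 * t + 1) ↔ (dot l w ≤ t) := by omega
    simp [this]
  have e2 : ∀ w : List Bool, (decide (2 * (2 * t - l.sum) + 1 + 2 * dot l w ≤ 2 * t + 1)).toNat =
      (decide (2 * t - l.sum + dot l w ≤ t)).toNat := by
    intro w
    have : (2 * (2 * t - l.sum) + 1 + 2 * dot l w ≤ 2 * t + 1) ↔
      (2 * t - l.sum + dot l w ≤ t) := by omega
    simp only [this]
  have e3 : ∀ w : List Bool, (decide (2 * t + 1 + 2 * dot l w ≤ 2 * t + 1)).toNat =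
      (decide (dot l w = 0)).toNat := by
    intro w
    have : (2 * t + 1 + 2 * dot l w ≤ 2 * t + 1) ↔ (dot l w = 0) := by omega
    simp only [this]
  have e4 : ∀ w : List Bool, (decide (2 * t + 1 + (2 * (2 * t - l.sum) + 1 + 2 * dot l w) ≤
      2 * t + 1)).toNat = 0 := by
    intro w
    have : ¬ (2 * t + 1 + (2 * (2 * t - l.sum) + 1 + 2 * dot l w) ≤ 2 * t + 1) := by omega
    simp only [this, decide_false, Bool.toNat_false]
  simp only [e1, e2, e3, e4]
  rw [count_trick l t h, bsum_pos_zero l hpos, bsum_const]
  ring

end Pool.Agent.H269.RT
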