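import Pool.Agent.NPC.Defs

/-!
# The randomization test problem for matched pairs
-/

set_option autoImplicit false

namespace Pool.Agent.H269.RT

/-- The distances `d_i = |x_i - y_i|`. -/
def dI (l : List (ℤ × ℤ)) (i : Fin l.length) : ℤ := |(l.get i).1 - (l.get i).2|

/-- The threshold `T`, the sum of `x_i - y_i` over the indices with `x_i > y_i`. -/
def TI (l : List (ℤ × ℤ)) : ℤ :=
  ∑ i ∈ Finset.univ.filter (fun i : Fin l.length => (l.get i).1 > (l.get i).2),
    ((l.get i).1 - (l.get i).2)

/-- The number `N` of the sets `S` of indices with `∑_{i ∈ S} d_i ≤ T`. -/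
def NI (l : List (ℤ × ℤ)) : ℕ :=
  (Finset.univ.filter (fun S : Finset (Fin l.length) => ∑ i ∈ S, dI l i ≤ TI l)).card

/-- The problem RTMP; an instance is the list of the pairs `(x_i, y_i)` together with `K`. -/
def RTMP (x : List (ℤ × ℤ) × ℕ) : Prop := x.2 ≤ NI x.1

end Pool.Agent.H269.RT
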