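import Pool.Agent.H269.RT.Mem

/-!
# RTMP is hard for PP
-/

set_option autoImplicit false

namespace Pool.Agent.NPC.RT269

open Pool.Agent.H269.RT Pool.Agent.NPC.Cnt

/-! ### Polynomial time -/

theorem dgb_poly : Poly (fun q : (CNF ℕ × It) × ℕ × ℕ => dgb q.1.1 q.1.2 q.2.1 q.2.2) := by
  have h1 : Poly (fun q : (CNF ℕ × It) × ℕ × ℕ => vl q.1.1) :=
    vl_poly.comp (Poly.fst (Poly.fst Poly.id))
  unfold dgb
  have h2 : Poly (fun q : (CNF ℕ × It) × ℕ × ℕ => q.1.1) := Poly.fst (Poly.fst Poly.id)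
  have h3 : Poly (fun q : (CNF ℕ × It) × ℕ × ℕ => q.1.2) := Poly.snd (Poly.fst Poly.id)
  have h4 : Poly (fun q : (CNF ℕ × It) × ℕ × ℕ => q.2.1) := Poly.fst (Poly.snd Poly.id)
  have h5 : Poly (fun q : (CNF ℕ × It) × ℕ × ℕ => q.2.2) := Poly.snd (Poly.snd Poly.id)
  have h6 : Poly (fun q : (CNF ℕ × It) × ℕ × ℕ => (vl q.1.1).length) := Poly.length h1
  fun_prop

theorem num_poly : Poly (fun q : CNF ℕ × It => num q.1 q.2) := by
  unfold num
  refine Poly.valBits ?_
  have h1 : Poly (fun q : CNF ℕ × It => vl q.1) := vl_poly.comp (Poly.fst Poly.id)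
  have u1 : UPoly (fun q : CNF ℕ × It => (vl q.1).length) := UPoly.length h1
  have u2 : UPoly (fun q : CNF ℕ × It => q.1.length) := UPoly.length (Poly.fst Poly.id)
  refine Poly.flatMap (l := fun q : CNF ℕ × It => List.range ((vl q.1).length + q.1.length))
    (F := fun q p => (List.range ((vl q.1).length + 3)).map fun r => dgb q.1 q.2 p r)
    (UPoly.add u1 u2).range ?_
  have u3 : UPoly (fun q : (CNF ℕ × It) × ℕ => (vl q.1.1).length + 3) :=
    UPoly.add (UPoly.length (vl_poly.comp (Poly.fst (Poly.fst Poly.id)))) (UPoly.const 3)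
  refine Poly.map (l := fun q : (CNF ℕ × It) × ℕ => List.range ((vl q.1.1).length + 3))
    (F := fun q r => dgb q.1.1 q.1.2 q.2 r) u3.range ?_
  have h2 : Poly (fun z : ((CNF ℕ × It) × ℕ) × ℕ => ((z.1.1, (z.1.2, z.2)) :
      (CNF ℕ × It) × ℕ × ℕ)) := by fun_prop
  exact dgb_poly.comp h2

theorem tgb_poly : Poly (fun q : CNF ℕ × ℕ × ℕ => tgb q.1 q.2.1 q.2.2) := by
  have h1 : Poly (fun q : CNF ℕ × ℕ × ℕ => vl q.1) := vl_poly.comp (Poly.fst Poly.id)
  unfold tgb
  have h6 : Poly (fun q : CNF ℕ × ℕ × ℕ => (vl q.1).length) := Poly.length h1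
  fun_prop

theorem tgt_poly : Poly tgt := by
  unfold tgt
  refine Poly.valBits ?_
  have u1 : UPoly (fun q : CNF ℕ => (vl q).length) := UPoly.length vl_poly
  have u2 : UPoly (fun q : CNF ℕ => q.length) := UPoly.length Poly.id
  refine Poly.flatMap (l := fun q : CNF ℕ => List.range ((vl q).length + q.length))
    (F := fun q p => (List.range ((vl q).length + 3)).map fun r => tgb q p r)
    (UPoly.add u1 u2).range ?_
  have u3 : UPoly (fun q : CNF ℕ × ℕ => (vl q.1).length + 3) :=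
    UPoly.add (UPoly.length (vl_poly.comp (Poly.fst Poly.id))) (UPoly.const 3)
  refine Poly.map (l := fun q : CNF ℕ × ℕ => List.range ((vl q.1).length + 3))
    (F := fun q r => tgb q.1 q.2 r) u3.range ?_
  have h2 : Poly (fun z : (CNF ℕ × ℕ) × ℕ => ((z.1.1, (z.1.2, z.2)) : CNF ℕ × ℕ × ℕ)) := by
    fun_prop
  exact tgb_poly.comp h2

theorem its_poly : Poly its := by
  unfold its lit slk
  refine Poly.append ?_ ?_
  · exact Poly.flatMap (l := fun φ : CNF ℕ => vl φ)
      (F := fun _ v => [((true, (true, (v, 0))) : It), (true, (false, (v, 0)))]) vl_poly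
      (by fun_prop)
  · have u2 : UPoly (fun q : CNF ℕ => q.length) := UPoly.length Poly.id
    refine Poly.flatMap (l := fun φ : CNF ℕ => List.range φ.length)
      (F := fun φ j => (List.range (vl φ).length).map (fun k =>
        ((false, (false, (j, k))) : It))) u2.range ?_
    have u3 : UPoly (fun q : CNF ℕ × ℕ => (vl q.1).length) :=
      UPoly.length (vl_poly.comp (Poly.fst Poly.id))
    exact Poly.map (l := fun q : CNF ℕ × ℕ => List.range (vl q.1).length)
      (F := fun q k => ((false, (false, (q.2, k))) : It)) u3.range (by fun_prop)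

/-- the items as numbers -/
def nums (φ : CNF ℕ) : List ℕ := (its φ).map (num φ)

theorem nums_poly : Poly nums := by
  unfold nums
  exact Poly.map (l := fun φ : CNF ℕ => its φ) (F := fun φ i => num φ i) its_poly num_poly

/-! ### The instance -/

/-- the pairs of the instance -/
def outP (φ : CNF ℕ) : List (ℤ × ℤ) :=
  (((2 * tgt φ + 1 : ℕ) : ℤ), ((0 : ℕ) : ℤ)) ::
    (((0 : ℕ) : ℤ), ((2 * (2 * tgt φ - (nums φ).sum) + 1 : ℕ) : ℤ)) ::
    (nums φ).map (fun a => (((0 : ℕ) : ℤ), ((2 * a : ℕ) : ℤ)))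

/-- the instance -/
def out (φ : CNF ℕ) (p : ℕ) : List (ℤ × ℤ) × ℕ :=
  (outP φ, 2 ^ (nums φ).length + (2 ^ p / 2 + 1) + 1)

theorem outP_poly : Poly outP := by
  unfold outP
  have h1 : Poly (fun φ : CNF ℕ => tgt φ) := tgt_poly
  have h2 : Poly (fun φ : CNF ℕ => nums φ) := nums_poly
  fun_prop

theorem out_poly {p : List Bool → List Unit} {g : List Bool → CNF ℕ} (hg : Poly g)
    (hp : Poly p) : Poly (fun x => out (g x) (p x).length) := by
  unfold out
  have h1 : Poly (fun x => 2 ^ (p x).length) := Med.poly_two_pow (UPoly.length hp)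
  have h2 : Poly (fun x => 2 ^ (nums (g x)).length) :=
    Med.poly_two_pow (UPoly.length (nums_poly.comp hg))
  have h3 : Poly (fun x => outP (g x)) := outP_poly.comp hg
  fun_prop

theorem dst_out (φ : CNF ℕ) : (outP φ).map dst =
    (2 * tgt φ + 1) :: (2 * (2 * tgt φ - (nums φ).sum) + 1) :: (nums φ).map (fun a => 2 * a) := by
  unfold outP
  rw [List.map_cons, List.map_cons, List.map_map]
  have e : ∀ a : ℕ, dst (((0 : ℕ) : ℤ), (a : ℤ)) = a := by
    intro a
    unfold dst
    simp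
  have e' : ∀ a : ℕ, dst ((a : ℤ), ((0 : ℕ) : ℤ)) = a := by
    intro a
    unfold dst
    simp
  rw [e, e']
  congr 2
  refine List.map_congr_left fun a _ => ?_
  rw [Function.comp_apply, e]

theorem gn_out (φ : CNF ℕ) : ((outP φ).map gn).sum = 2 * tgt φ + 1 := by
  unfold outP
  rw [List.map_cons, List.map_cons, List.map_map]
  have e : ∀ a : ℕ, gn (((0 : ℕ) : ℤ), (a : ℤ)) = 0 := by
    intro a
    unfold gn
    simp
  have e' : ∀ a : ℕ, gn ((a : ℤ), ((0 : ℕ) : ℤ)) = a := by
    intro a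
    unfold gn
    simp
  have e2 : (nums φ).map (gn ∘ fun a => (((0 : ℕ) : ℤ), ((2 * a : ℕ) : ℤ))) =
      (nums φ).map (fun _ => 0) :=
    List.map_congr_left fun a _ => by rw [Function.comp_apply, e]
  rw [e, e', e2, List.sum_cons, List.sum_cons, List.map_const', List.sum_replicate]
  simp

/-- The number `N` for the instance. -/
theorem NI_out (φ : CNF ℕ) : NI (outP φ) = 2 ^ (nums φ).length + satCount φ + 1 := by
  have hlen : (outP φ).length = ((outP φ).map dst).length := by rw [List.length_map]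
  rw [NI_eq, hlen, gn_out, dst_out, count_final (nums φ) (tgt φ) (sum_num_le φ)]
  · unfold nums
    rw [← bsum_its φ, List.length_map]
  · intro a ha
    unfold nums at ha
    obtain ⟨i, hi, rfl⟩ := List.mem_map.1 ha
    exact num_pos φ hi

theorem rtmp_out (φ : CNF ℕ) (p : ℕ) : RTMP (out φ p) ↔ 2 ^ p < 2 * satCount φ := by
  unfold RTMP out
  simp only
  rw [NI_out]
  omega

/-- **Hardness for PP.** -/
theorem rtmp_hard {L : Set (List Bool)} (hL : Med.InPPc L) :
    ∃ f : List Bool → List (ℤ × ℤ) × ℕ, PolyTime (fun x => bits (f x)) ∧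
      ∀ x, x ∈ L ↔ RTMP (f x) := by
  obtain ⟨g, p, hg, hp, hL⟩ := pp_data hL
  exact ⟨fun x => out (g x) (p x).length, polyTime_bits (out_poly hg hp),
    fun x => by rw [rtmp_out]; exact hL x⟩

theorem rtmp_hard' {L : Set (List Bool)} (hL : Med.InPPc L) : Reduces L (lang RTMP) := by
  obtain ⟨f, hf, h⟩ := rtmp_hard hL
  exact ⟨fun x => bits (f x), hf, fun x => by rw [bits_mem_lang]; exact h x⟩

/-- PP is closed under complements. -/
theorem pp_compl {L : Set (List Bool)} (hL : Med.InPPc L) : Med.InPPc Lᶜ := by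
  obtain ⟨V, p, hV, hL⟩ := hL
  have h := inPP_lt_raw
    (CountP.mul (CountP.const 2) (countP_of_sharpP ⟨V, p, hV, fun _ => rfl⟩))
    (CountP.add (CountP.pow (CountP.const 2) (Med.uPoly_evalLen Poly.id p)) (CountP.const 1))
  refine cast (congrArg Med.InPPc ?_) h
  ext x
  rw [Set.mem_compl_iff, hL x]
  show 2 * _ < 2 ^ _ + 1 ↔ _
  omega

theorem rtmp_np {L : Set (List Bool)} (h : InNP (lang RTMP)) (hL : Med.InPPc L) : InNP L := by
  obtain ⟨g, p, hg, hp, hL⟩ := pp_data hL
  have h3 : InNPP RTMP := h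
  refine Med.inNP_raw (cast (congrArg InNPP ?_) (Med.InNPP.comp h3 (out_poly hg hp)))
  funext x
  rw [rtmp_out]
  exact propext (hL x).symm

theorem rtmp_iff : InNP (lang RTMP) ↔ ∀ L : Set (List Bool), Med.InPPc L ↔ InNP L :=
  ⟨fun h L => ⟨rtmp_np h, np_sub_pp⟩, fun h => (h _).1 rtmp_inPP⟩

/-- If RTMP is in NP then NP is closed under complements. -/
theorem rtmp_conp (h : InNP (lang RTMP)) {L : Set (List Bool)} (hL : InNP L) : InNP Lᶜ :=
  rtmp_np h (pp_compl (np_sub_pp hL))

end Pool.Agent.NPC.RT269
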