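import Pool.Agent.H269.RT.PPBase
import Pool.Agent.H269.RT.Defs

/-!
# RTMP belongs to PP
-/

set_option autoImplicit false

namespace Pool.Agent.NPC.RT269

open Pool.Agent.H269.RT Pool.Agent.NPC.Cnt

/-! ### Integers -/

/-- sign and absolute value -/
theorem poly_sa : Poly (fun z : ℤ => (decide (z < 0), z.natAbs)) :=
  Poly.of_toT ((Poly.toT' Poly.id).congr fun z => rfl)

@[fun_prop]
theorem poly_neg {α : Type} [TEnc α] {f : α → ℤ} (hf : Poly f) :
    Poly (fun a => decide (f a < 0)) := (Poly.fst poly_sa).comp hf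

@[fun_prop]
theorem poly_nabs {α : Type} [TEnc α] {f : α → ℤ} (hf : Poly f) :
    Poly (fun a => (f a).natAbs) := (Poly.snd poly_sa).comp hf

/-- `|x - y|` -/
def dst (q : ℤ × ℤ) : ℕ := (q.1 - q.2).natAbs
/-- `x - y` if positive -/
def gn (q : ℤ × ℤ) : ℕ := (q.1 - q.2).toNat

@[fun_prop]
theorem dst_poly : Poly dst := by
  have h : Poly (fun q : ℤ × ℤ => bif decide (decide (q.1 < 0) = decide (q.2 < 0)) then
      (q.1.natAbs - q.2.natAbs) + (q.2.natAbs - q.1.natAbs) else q.1.natAbs + q.2.natAbs) := by
    fun_prop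
  refine h.congr fun q => ?_
  unfold dst
  by_cases h1 : q.1 < 0 <;> by_cases h2 : q.2 < 0 <;> simp [h1, h2] <;> omega

@[fun_prop]
theorem gn_poly : Poly gn := by
  have h : Poly (fun q : ℤ × ℤ => bif decide (decide (q.1 < 0) = decide (q.2 < 0)) then
      (bif decide (q.1 < 0) then q.2.natAbs - q.1.natAbs else q.1.natAbs - q.2.natAbs)
      else (bif decide (q.1 < 0) then 0 else q.1.natAbs + q.2.natAbs)) := by
    fun_prop
  refine h.congr fun q => ?_
  unfold gn
  by_cases h1 : q.1 < 0 <;> by_cases h2 : q.2 < 0 <;> simp [h1, h2] <;> omega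

/-! ### The number of sets as a sum over strings -/

theorem map_finRange (l : List (ℤ × ℤ)) (f : ℤ × ℤ → ℕ) :
    (List.finRange l.length).map (fun i => f (l.get i)) = l.map f := by
  apply List.ext_getElem
  · simp
  · intro i h1 h2
    simp

theorem dI_eq (l : List (ℤ × ℤ)) (i : Fin l.length) : dI l i = ((dst (l.get i) : ℕ) : ℤ) := by
  unfold dI dst
  exact (Int.natCast_natAbs _).symm

theorem TI_eq (l : List (ℤ × ℤ)) : TI l = (((l.map gn).sum : ℕ) : ℤ) := by
  unfold TI
  rw [← map_finRange, ← List.sum_toFinset _ (List.nodup_finRange _), Nat.cast_sum,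
    Finset.sum_filter]
  have e : (List.finRange l.length).toFinset = Finset.univ := by
    ext i; simp
  rw [e]
  refine Finset.sum_congr rfl fun i _ => ?_
  unfold gn
  split_ifs with h <;> omega

theorem NI_eq (l : List (ℤ × ℤ)) : NI l =
    Cnt.bsum l.length (fun w => (decide (dot (l.map dst) w ≤ (l.map gn).sum)).toNat) := by
  unfold NI
  rw [Finset.card_filter]
  have e : (List.finRange l.length).toFinset = Finset.univ := by
    ext i; simp
  have h1 := bsum_sel (List.finRange l.length) (List.nodup_finRange _)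
    (fun S => if ∑ i ∈ S, dI l i ≤ TI l then 1 else 0)
  rw [e, Finset.powerset_univ, List.length_finRange] at h1
  rw [← h1]
  refine Cnt.bsum_congr fun w hw => ?_
  rw [← map_finRange l dst, dot_eq (fun i => dst (l.get i)) _ w (List.nodup_finRange _) (by
    rw [List.length_finRange, hw]), TI_eq]
  simp only [dI_eq]
  rw [← Nat.cast_sum]
  by_cases h : ∑ i ∈ selF (List.finRange l.length) w, dst (l.get i) ≤ (l.map gn).sum
  · rw [if_pos (by exact_mod_cast h), decide_eq_true h]; rfl
  · rw [if_neg (by exact_mod_cast h), decide_eq_false h]; rfl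

theorem dot_zip : ∀ (l : List ℕ) (w : List Bool),
    dot l w = (((l.zip w).filter (fun q => q.2)).map (fun q => q.1)).sum
  | [], w => by simp [dot]
  | a :: l, [] => by simp [dot]
  | a :: l, b :: w => by
    rw [dot, dot_zip l w, List.zip_cons_cons]
    cases b <;> simp

@[fun_prop]
theorem dot_poly {α : Type} [TEnc α] {l : α → List ℕ} {w : α → List Bool} (hl : Poly l)
    (hw : Poly w) : Poly (fun a => dot (l a) (w a)) := by
  have h : Poly (fun a => ((((l a).zip (w a)).filter (fun q => q.2)).map (fun q => q.1)).sum) := by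
    fun_prop
  exact h.congr fun a => (dot_zip _ _).symm

/-- the function computing `N` from the code of an instance -/
def NS (x : List Bool) : ℕ := (unbits (List (ℤ × ℤ) × ℕ) x).elim 0 (fun q => NI q.1)

/-- the pairs of the coded instance -/
def prs (x : List Bool) : List (ℤ × ℤ) :=
  (unbits (List (ℤ × ℤ) × ℕ) x).elim [] (fun q => q.1)

theorem prs_poly : Poly prs := by
  unfold prs
  refine Poly.optElim (o := fun x : List Bool => unbits (List (ℤ × ℤ) × ℕ) x)
    (g := fun _ => []) (h := fun _ q => q.1) poly_unbits (Poly.const _) ?_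
  fun_prop

/-- validity of the code, as a number -/
def ok (x : List Bool) : ℕ := (unbits (List (ℤ × ℤ) × ℕ) x).elim 0 (fun _ => 1)

theorem ok_poly : Poly ok := by
  unfold ok
  exact Poly.optElim (o := fun x : List Bool => unbits (List (ℤ × ℤ) × ℕ) x)
    (g := fun _ => 0) (h := fun _ _ => 1) poly_unbits (Poly.const _) (Poly.const _)

/-- the threshold of the coded instance -/
def kk (x : List Bool) : ℕ := (unbits (List (ℤ × ℤ) × ℕ) x).elim 0 (fun q => q.2)

theorem kk_poly : Poly kk := by
  unfold kk
  refine Poly.optElim (o := fun x : List Bool => unbits (List (ℤ × ℤ) × ℕ) x)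
    (g := fun _ => 0) (h := fun _ q => q.2) poly_unbits (Poly.const _) ?_
  fun_prop

theorem countP_N : CountP (fun x : List Bool => NI (prs x)) := by
  refine ⟨fun z => decide (dot ((prs z.1).map dst) z.2 ≤ ((prs z.1).map gn).sum),
    fun x => (prs x).length, ?_, UPoly.length prs_poly, fun x => NI_eq _⟩
  have h1 : Poly (fun z : List Bool × List Bool => prs z.1) :=
    prs_poly.comp (Poly.fst Poly.id)
  have h2 : Poly (fun z : List Bool × List Bool => (prs z.1).map dst) :=
    Poly.map (F := fun _ q => dst q) h1 (dst_poly.comp (Poly.snd Poly.id))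
  have h3 : Poly (fun z : List Bool × List Bool => (prs z.1).map gn) :=
    Poly.map (F := fun _ q => gn q) h1 (gn_poly.comp (Poly.snd Poly.id))
  exact Poly.decide_le (dot_poly h2 (Poly.snd Poly.id)) (Poly.sum h3)

/-- RTMP belongs to PP. -/
theorem rtmp_inPP : Med.InPPc (lang RTMP) := by
  have h := inPP_lt_raw (CountP.ofPoly kk_poly)
    (CountP.mul (CountP.ofPoly ok_poly) (CountP.add countP_N (CountP.const 1)))
  refine cast (congrArg Med.InPPc ?_) h
  ext x
  rw [mem_lang_iff]
  show kk x < ok x * (NI (prs x) + 1) ↔ _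
  unfold kk ok prs
  cases hx : unbits (List (ℤ × ℤ) × ℕ) x with
  | none => simp
  | some q =>
    simp only [Option.elim_some, Option.some.injEq, exists_eq_left']
    unfold RTMP
    omega

end Pool.Agent.NPC.RT269
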