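import Pool.Agent.H269.RT.Bij

/-!
# Languages in `PP`

The statements of this file are copies of results of the starting library.
-/

set_option autoImplicit false

namespace Pool.Agent.NPC.RT269

open Pool.Agent.H269.RT Pool.Agent.NPC.Cnt

section
variable {α : Type} [TEnc α]

theorem countP_of_sharpP {f : List Bool → ℕ} (hf : SharpP f) : CountP f := by
  obtain ⟨V, p, hV, hf⟩ := hf
  refine ⟨fun x => decide (V (pairBits x.1 x.2) = [true]), fun x => p.eval x.length, ?_,
    Med.uPoly_evalLen Poly.id p, fun x => ?_⟩
  · exact Poly.decide_eq ((Med.poly_of_polyTime hV).comp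
      (Med.poly_pairBits (Poly.fst Poly.id) (Poly.snd Poly.id))) (Poly.const [true])
  · rw [hf, bsum_eq_card _ fun w => decide (V (pairBits x w) = [true])]
    refine Nat.card_congr (Equiv.subtypeEquivRight fun w => ?_)
    rw [decide_eq_true_iff]

theorem countP_typed [Cnt.TDec α] {γ : Type} [TEnc γ] [Cnt.TDec γ] (R : α → γ → Bool)
    (hR : Poly (fun z : α × γ => R z.1 z.2)) (q : Polynomial ℕ)
    (hq : ∀ a c, R a c = true → sz c ≤ q.eval (sz a)) :
    CountP (fun a => Nat.card {c : γ // R a c = true}) := by
  have h1 := sharpP_typed R hR q hq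
  have h2 := (countP_of_sharpP h1).comp (g := fun a : α => bits a) Med.poly_bits
  refine h2.congr fun a => ?_
  rw [strFn_bits]

end

theorem inPP_lt_raw {F G : List Bool → ℕ} (hF : CountP F) (hG : CountP G) :
    Med.InPPc {x | F x < G x} := by
  obtain ⟨R, r, hR, hF⟩ := hF.normal
  obtain ⟨R', r', hR', hG⟩ := hG.normal
  let test : List Bool × List Bool → Bool := fun s => bif s.2.head?.getD false
    then R' (s.1, s.2.tail) else !R (s.1, s.2.tail)
  have htest : Poly test := by
    have h2 : Poly (fun z : List Bool × List Bool => (z.1, z.2.tail)) := by fun_prop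
    exact Poly.cond (by fun_prop) (hR'.comp h2) (Poly.not (hR.comp h2))
  refine ⟨fun y => [test (NPC.unpair y)],
    (r + r').comp (Polynomial.C 4 * Polynomial.X + Polynomial.C 1) + Polynomial.C 1,
    polyTime_of_poly (htest.comp NPC.poly_unpair), fun x => ?_⟩
  simp only [NPC.unpair_pairBits, List.cons.injEq, and_true, Polynomial.eval_add,
    Polynomial.eval_C, Polynomial.eval_comp, Polynomial.eval_mul, Polynomial.eval_X]
  rw [← bsum_eq_card _ fun w => test (x, w), bsum_succ, pow_succ]
  have hsz := Pool.Agent.NPC.sz_listBool_le x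
  set B := r.eval (4 * x.length + 1) + r'.eval (4 * x.length + 1) with hB
  have b1 : r.eval (sz x) ≤ B := (eval_mono r hsz).trans (by omega)
  have b2 : r'.eval (sz x) ≤ B := (eval_mono r' hsz).trans (by omega)
  have e1 : bsum B (fun w => (test (x, true :: w)).toNat) = G x := by
    rw [hG x B b2]
    refine bsum_congr fun w _ => ?_
    simp only [test, List.head?_cons, Option.getD_some, cond_true, List.tail_cons]
  have e2 : bsum B (fun w => (test (x, false :: w)).toNat) + F x = 2 ^ B := by
    rw [hF x B b1, ← bsum_add]
    have : bsum B (fun _ => 1) = 2 ^ B := by rw [bsum_const, mul_one]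
    rw [← this]
    refine bsum_congr fun w _ => ?_
    simp only [test, List.head?_cons, Option.getD_some, cond_false, List.tail_cons]
    cases R (x, w) <;> rfl
  rw [e1]
  show F x < G x ↔ _
  omega

/-- `NP` is contained in `PP`. -/
theorem np_sub_pp {L : Set (List Bool)} (hL : InNP L) : Med.InPPc L := by
  obtain ⟨V, p, hV, hL⟩ := hL
  have h1 : CountP (fun x : List Bool => Nat.card {w : List Bool //
      (decide (w.length ≤ p.eval x.length) && decide (V (pairBits x w) = [true])) = true}) := by
    refine countP_typed (fun (x w : List Bool) => decide (w.length ≤ p.eval x.length) &&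
      decide (V (pairBits x w) = [true])) ?_ (Polynomial.C 4 * p + Polynomial.C 1) ?_
    · have h1 : Poly (fun z : List Bool × List Bool => p.eval z.1.length) :=
        (Med.uPoly_evalLen (x := fun z : List Bool × List Bool => z.1) (by fun_prop) p).toPoly
      have h2 : Poly (fun z : List Bool × List Bool => V (pairBits z.1 z.2)) :=
        (Med.poly_of_polyTime hV).comp (Med.poly_pairBits (by fun_prop) (by fun_prop))
      exact Poly.and (Poly.decide_le (by fun_prop) h1) (Poly.decide_eq h2 (Poly.const [true]))
    · intro x w h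
      rw [Bool.and_eq_true, decide_eq_true_eq] at h
      have h2 := Pool.Agent.NPC.sz_listBool_le w
      have h3 : p.eval x.length ≤ p.eval (sz x) := eval_mono p (length_lt_sz x).le
      simp only [Polynomial.eval_add, Polynomial.eval_mul, Polynomial.eval_C]
      omega
  have h2 := inPP_lt_raw (CountP.const 0) h1
  refine cast (congrArg Med.InPPc ?_) h2
  ext x
  rw [hL x]
  show 0 < _ ↔ _
  have hfin : Finite {w : List Bool // (decide (w.length ≤ p.eval x.length) &&
      decide (V (pairBits x w) = [true])) = true} := by
    have h2 : ({w : List Bool | (decide (w.length ≤ p.eval x.length) &&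
      decide (V (pairBits x w) = [true])) = true} : Set (List Bool)).Finite :=
      (List.finite_length_le Bool (p.eval x.length)).subset fun w hw => by
        rw [Set.mem_ofPred_eq, Bool.and_eq_true, decide_eq_true_eq] at hw
        exact hw.1
    exact h2
  rw [Nat.card_pos_iff, and_iff_left hfin]
  constructor
  · rintro ⟨w, hw⟩
    rw [Bool.and_eq_true, decide_eq_true_eq, decide_eq_true_eq] at hw
    exact ⟨w, hw⟩
  · rintro ⟨w, h1, h2⟩
    exact ⟨w, by rw [Bool.and_eq_true, decide_eq_true_eq, decide_eq_true_eq]; exact ⟨h1, h2⟩⟩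

/-- the data of a language in `PP` -/
theorem pp_data {L : Set (List Bool)} (hL : Med.InPPc L) :
    ∃ (g : List Bool → CNF ℕ) (p : List Bool → List Unit), Poly g ∧ Poly p ∧
      ∀ x, x ∈ L ↔ 2 ^ (p x).length < 2 * satCount (g x) := by
  obtain ⟨V, p, hV, hL⟩ := hL
  obtain ⟨g, hg, hgs⟩ := parsimonious hV p
  refine ⟨g, fun x => List.replicate (p.eval x.length) (), PC.comp hg pc_raw,
    Med.uPoly_evalLen Poly.id p, fun x => ?_⟩
  rw [hL x, hgs x, List.length_replicate]

end Pool.Agent.NPC.RT269
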