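import Pool.Agent.H269.RT.Comb

/-!
# From formulas to subset sums, with the same number of solutions
-/

set_option autoImplicit false

namespace Pool.Agent.H269.RT

open Pool.Agent.NPC Pool.Agent.NPC.Cnt

/-- items -/
abbrev It := Bool × (Bool × (ℕ × ℕ))

/-- the item of a literal -/
def lit (v : ℕ) (b : Bool) : It := (true, (b, (v, 0)))
/-- a slack item -/
def slk (j k : ℕ) : It := (false, (false, (j, k)))

/-- the items -/
def its (φ : CNF ℕ) : List It :=
  (vl φ).flatMap (fun v => [lit v true, lit v false]) ++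
    (List.range φ.length).flatMap (fun j => (List.range (vl φ).length).map (fun k => slk j k))

/-- the bits of an item -/
def dgb (φ : CNF ℕ) (i : It) (p r : ℕ) : Bool :=
  bif i.1 then decide (r = 0) && (bif decide (p < (vl φ).length) then
      decide ((vl φ).getD p 0 = i.2.2.1)
    else decide ((i.2.1, i.2.2.1) ∈ φ.getD (p - (vl φ).length) []))
  else decide (p = (vl φ).length + i.2.2.1) && decide (r = i.2.2.2)

/-- the number of an item -/
def num (φ : CNF ℕ) (i : It) : ℕ :=
  valB ((List.range ((vl φ).length + φ.length)).flatMap fun p =>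
    (List.range ((vl φ).length + 3)).map fun r => dgb φ i p r)

/-- the bits of the target -/
def tgb (φ : CNF ℕ) (p r : ℕ) : Bool :=
  bif decide (p < (vl φ).length) then decide (r = 0) else decide (r = (vl φ).length)

/-- the target -/
def tgt (φ : CNF ℕ) : ℕ :=
  valB ((List.range ((vl φ).length + φ.length)).flatMap fun p =>
    (List.range ((vl φ).length + 3)).map fun r => tgb φ p r)

theorem valB_range (W : ℕ) (g : ℕ → Bool) :
    valB ((List.range W).map g) = ∑ r ∈ Finset.range W, (g r).toNat * 2 ^ r := by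
  induction W with
  | zero => rfl
  | succ W ih =>
    rw [List.range_succ, List.map_append, valB_append, ih, Finset.sum_range_succ]
    simp only [List.length_map, List.length_range, List.map_cons, List.map_nil, valB_cons, valB_nil]
    cases g W <;> simp

theorem valB_blocks (N W : ℕ) (f : ℕ → ℕ → Bool) :
    valB ((List.range N).flatMap fun p => (List.range W).map fun r => f p r) =
      ∑ p ∈ Finset.range N, (∑ r ∈ Finset.range W, (f p r).toNat * 2 ^ r) * (2 ^ W) ^ p := by
  induction N with
  | zero => rfl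
  | succ N ih =>
    rw [List.range_succ, List.flatMap_append, valB_append, ih, Finset.sum_range_succ]
    have hl : ((List.range N).flatMap fun p => (List.range W).map fun r => f p r).length
        = N * W := by
      rw [List.length_flatMap]
      simp
    rw [hl]
    simp only [List.flatMap_cons, List.flatMap_nil, List.append_nil]
    rw [valB_range, ← pow_mul, mul_comm N W]
    ring

theorem sum_lt_pow (M N : ℕ) (hM : 0 < M) (x : ℕ → ℕ) (hx : ∀ p < N, x p < M) :
    ∑ p ∈ Finset.range N, x p * M ^ p < M ^ N := by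
  induction N with
  | zero => simp
  | succ N ih =>
    rw [Finset.sum_range_succ, pow_succ]
    have h1 := ih (fun p hp => hx p (by omega))
    have h2 : (x N + 1) * M ^ N ≤ M * M ^ N := Nat.mul_le_mul_right _ (hx N (by omega))
    rw [add_mul, one_mul] at h2
    rw [mul_comm (M ^ N) M]
    omega

theorem digits_unique (M N : ℕ) (hM : 0 < M) (x y : ℕ → ℕ) (hx : ∀ p < N, x p < M)
    (hy : ∀ p < N, y p < M)
    (h : ∑ p ∈ Finset.range N, x p * M ^ p = ∑ p ∈ Finset.range N, y p * M ^ p) :
    ∀ p < N, x p = y p := by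
  induction N with
  | zero => intro p hp; omega
  | succ N ih =>
    rw [Finset.sum_range_succ, Finset.sum_range_succ] at h
    have h1 := sum_lt_pow M N hM x (fun p hp => hx p (by omega))
    have h2 := sum_lt_pow M N hM y (fun p hp => hy p (by omega))
    have h3 : x N = y N := by
      rcases Nat.lt_trichotomy (x N) (y N) with h3 | h3 | h3
      · have : (x N + 1) * M ^ N ≤ y N * M ^ N := Nat.mul_le_mul_right _ h3
        rw [add_mul] at this
        omega
      · exact h3
      · have : (y N + 1) * M ^ N ≤ x N * M ^ N := Nat.mul_le_mul_right _ h3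
        rw [add_mul] at this
        omega
    intro p hp
    rcases Nat.lt_succ_iff_lt_or_eq.1 hp with hp' | rfl
    · exact ih (fun p hp => hx p (by omega)) (fun p hp => hy p (by omega)) (by
        rw [h3] at h; omega) p hp'
    · exact h3

theorem sum_testBit (V x : ℕ) :
    ∑ k ∈ Finset.range V, (x.testBit k).toNat * 2 ^ k = x % 2 ^ V := by
  induction V with
  | zero => simp [Nat.mod_one]
  | succ V ih =>
    rw [Finset.sum_range_succ, ih, Nat.mod_pow_succ, Nat.testBit_eq_decide_div_mod_eq]
    have h2 : x / 2 ^ V % 2 < 2 := Nat.mod_lt _ (by omega)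
    have h3 : (decide (x / 2 ^ V % 2 = 1)).toNat = x / 2 ^ V % 2 := by
      interval_cases (x / 2 ^ V % 2) <;> simp
    rw [h3]
    ring

/-! ### Digits -/

variable (φ : CNF ℕ)

/-- the digit of an item -/
def dg (i : It) (p : ℕ) : ℕ :=
  ∑ r ∈ Finset.range ((vl φ).length + 3), (dgb φ i p r).toNat * 2 ^ r

/-- the digits of the target -/
def tg (p : ℕ) : ℕ := if p < (vl φ).length then 1 else 2 ^ (vl φ).length

theorem num_eq (i : It) : num φ i =
    ∑ p ∈ Finset.range ((vl φ).length + φ.length), dg φ i p * (2 ^ ((vl φ).length + 3)) ^ p :=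
  valB_blocks _ _ _

theorem sum_ind (W a : ℕ) (ha : a < W) (c : Bool) :
    ∑ r ∈ Finset.range W, (decide (r = a) && c).toNat * 2 ^ r = c.toNat * 2 ^ a := by
  rw [Finset.sum_eq_single_of_mem a (Finset.mem_range.2 ha)]
  · simp
  · intro b _ hb
    simp [hb]

theorem tgt_eq : tgt φ =
    ∑ p ∈ Finset.range ((vl φ).length + φ.length), tg φ p * (2 ^ ((vl φ).length + 3)) ^ p := by
  unfold tgt
  rw [valB_blocks]
  refine Finset.sum_congr rfl fun p _ => ?_
  congr 1
  unfold tg tgb
  by_cases h : p < (vl φ).length
  · simp only [h, decide_true, cond_true, if_true]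
    have := sum_ind ((vl φ).length + 3) 0 (by omega) true
    simpa using this
  · simp only [h, decide_false, cond_false, if_false]
    have := sum_ind ((vl φ).length + 3) (vl φ).length (by omega) true
    simpa using this

theorem dg_lit (v : ℕ) (b : Bool) (p : ℕ) : dg φ (lit v b) p =
    (bif decide (p < (vl φ).length) then decide ((vl φ).getD p 0 = v)
      else decide ((b, v) ∈ φ.getD (p - (vl φ).length) [])).toNat := by
  unfold dg dgb lit
  simp only [cond_true]
  rw [sum_ind _ 0 (by omega)]
  simp

theorem dg_slk (j k p : ℕ) (hk : k < (vl φ).length) : dg φ (slk j k) p =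
    if p = (vl φ).length + j then 2 ^ k else 0 := by
  unfold dg dgb slk
  simp only [cond_false]
  have : ∀ r, (decide (p = (vl φ).length + j) && decide (r = k)) =
      (decide (r = k) && decide (p = (vl φ).length + j)) := fun r => Bool.and_comm _ _
  simp only [this]
  rw [sum_ind _ k (by omega)]
  by_cases h : p = (vl φ).length + j <;> simp [h]

theorem mem_its {i : It} : i ∈ its φ ↔ (∃ v ∈ vars φ, ∃ b, i = lit v b) ∨
    (∃ j < φ.length, ∃ k < (vl φ).length, i = slk j k) := by
  unfold its
  rw [List.mem_append, List.mem_flatMap, List.mem_flatMap]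
  simp only [← vl_toFinset, List.mem_toFinset, List.mem_range, List.mem_cons,
    List.not_mem_nil, or_false, List.mem_map]
  constructor
  · rintro (⟨v, hv, rfl | rfl⟩ | ⟨j, hj, k, hk, rfl⟩)
    · exact Or.inl ⟨v, hv, true, rfl⟩
    · exact Or.inl ⟨v, hv, false, rfl⟩
    · exact Or.inr ⟨j, hj, k, hk, rfl⟩
  · rintro (⟨v, hv, b, rfl⟩ | ⟨j, hj, k, hk, rfl⟩)
    · cases b
      · exact Or.inl ⟨v, hv, Or.inr rfl⟩
      · exact Or.inl ⟨v, hv, Or.inl rfl⟩
    · exact Or.inr ⟨j, hj, k, hk, rfl⟩

theorem its_nodup : (its φ).Nodup := by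
  unfold its
  rw [List.nodup_append]
  refine ⟨?_, ?_, ?_⟩
  · rw [List.nodup_flatMap]
    refine ⟨fun v _ => by simp [lit], (vl_nodup φ).imp ?_⟩
    intro a b hab
    simp [Function.onFun, List.Disjoint, lit, hab]
  · rw [List.nodup_flatMap]
    refine ⟨fun j _ => ?_, (List.nodup_range).imp ?_⟩
    · refine (List.nodup_range).map ?_
      intro a b h
      simpa [slk] using h
    · intro a b hab
      intro x hx hx'
      rw [List.mem_map] at hx hx'
      obtain ⟨k, _, rfl⟩ := hx
      obtain ⟨k', _, h⟩ := hx'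
      simp only [slk, Prod.mk.injEq, true_and] at h
      exact hab h.1.symm
  · intro a ha b hb hab
    subst hab
    rw [List.mem_flatMap] at ha hb
    obtain ⟨v, _, hv⟩ := ha
    obtain ⟨j, _, hj⟩ := hb
    rw [List.mem_map] at hj
    obtain ⟨k, _, rfl⟩ := hj
    simp [lit, slk] at hv

theorem map_flatMap_sum {α β : Type} (l : List α) (F : α → List β) (g : β → ℕ) :
    ((l.flatMap F).map g).sum = (l.map (fun a => ((F a).map g).sum)).sum := by
  induction l with
  | nil => rfl
  | cons a l ih =>
    rw [List.flatMap_cons, List.map_append, List.sum_append, ih, List.map_cons, List.sum_cons]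

/-- sums over all items -/
theorem sum_its (g : It → ℕ) : ((its φ).map g).sum =
    ∑ v ∈ vars φ, (g (lit v true) + g (lit v false)) +
      ∑ j ∈ Finset.range φ.length, ∑ k ∈ Finset.range (vl φ).length, g (slk j k) := by
  unfold its
  rw [List.map_append, List.sum_append, map_flatMap_sum, map_flatMap_sum]
  congr 1
  · rw [← vl_toFinset, List.sum_toFinset _ (vl_nodup φ)]
    simp
  · have h1 : ∀ (n : ℕ) (h : ℕ → ℕ), ((List.range n).map h).sum = ∑ k ∈ Finset.range n, h k := by
      intro n h
      rw [← List.sum_toFinset _ (List.nodup_range), List.toFinset_range]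
    rw [h1]
    refine Finset.sum_congr rfl fun j _ => ?_
    rw [List.map_map, h1]
    rfl

/-- sums over a set of items -/
theorem sum_sub {S : Finset It} (hS : S ⊆ (its φ).toFinset) (f : It → ℕ) : ∑ i ∈ S, f i =
    ∑ v ∈ vars φ, ((if lit v true ∈ S then f (lit v true) else 0) +
      (if lit v false ∈ S then f (lit v false) else 0)) +
      ∑ j ∈ Finset.range φ.length, ∑ k ∈ Finset.range (vl φ).length,
        (if slk j k ∈ S then f (slk j k) else 0) := by
  rw [← sum_its φ (fun i => if i ∈ S then f i else 0), ← List.sum_toFinset _ (its_nodup φ),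
    Finset.sum_ite_mem, Finset.inter_eq_right.2 hS]

theorem card_vars : (vars φ).card = (vl φ).length := by
  rw [← vl_toFinset, List.toFinset_card_of_nodup (vl_nodup φ)]

theorem two_mul_le (V : ℕ) : 2 * V ≤ 2 ^ V + 1 := by
  induction V with
  | zero => simp
  | succ V ih =>
    rw [pow_succ]
    have : 1 ≤ 2 ^ V := Nat.one_le_two_pow
    rcases Nat.eq_zero_or_pos V with rfl | hV
    · simp
    · have : 2 ≤ 2 ^ V := by
        calc 2 = 2 ^ 1 := rfl
          _ ≤ 2 ^ V := Nat.pow_le_pow_right (by omega) hV
      omega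

theorem sum_two_pow (V : ℕ) : ∑ k ∈ Finset.range V, 2 ^ k = 2 ^ V - 1 := by
  induction V with
  | zero => rfl
  | succ V ih =>
    rw [Finset.sum_range_succ, ih, pow_succ]
    have : 1 ≤ 2 ^ V := Nat.one_le_two_pow
    omega

/-- the value of the digits at a variable -/
theorem ind_var {p : ℕ} (hp : p < (vl φ).length) (g : ℕ → ℕ) :
    ∑ v ∈ vars φ, (decide ((vl φ).getD p 0 = v)).toNat * g v = g ((vl φ).getD p 0) := by
  have hmem : (vl φ).getD p 0 ∈ vars φ := by
    rw [← vl_toFinset, List.mem_toFinset, List.getD_eq_getElem _ _ hp]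
    exact List.getElem_mem hp
  rw [Finset.sum_eq_single_of_mem _ hmem]
  · rw [decide_eq_true rfl, Bool.toNat_true, one_mul]
  · intro b _ hb
    rw [decide_eq_false (Ne.symm hb), Bool.toNat_false, zero_mul]

/-- total digits are at most twice the target digits -/
theorem total_digit {p : ℕ} (hp : p < (vl φ).length + φ.length) :
    ((its φ).map (fun i => dg φ i p)).sum ≤ 2 * tg φ p := by
  rw [sum_its]
  by_cases h : p < (vl φ).length
  · have h1 : ∀ j ∈ Finset.range φ.length, ∑ k ∈ Finset.range (vl φ).length,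
        dg φ (slk j k) p = 0 := by
      intro j _
      refine Finset.sum_eq_zero fun k hk => ?_
      rw [dg_slk φ j k p (Finset.mem_range.1 hk), if_neg (by omega)]
    rw [Finset.sum_eq_zero h1, add_zero]
    have h2 : ∑ v ∈ vars φ, (dg φ (lit v true) p + dg φ (lit v false) p) = 2 := by
      rw [← ind_var φ h (fun _ => 2)]
      refine Finset.sum_congr rfl fun v _ => ?_
      rw [dg_lit, dg_lit]
      simp only [h, decide_true, cond_true]
      ring
    rw [h2]
    unfold tg
    rw [if_pos h]
  · obtain ⟨j₀, rfl⟩ : ∃ j₀, p = (vl φ).length + j₀ := ⟨p - (vl φ).length, by omega⟩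
    have h1 : ∑ j ∈ Finset.range φ.length, ∑ k ∈ Finset.range (vl φ).length,
        dg φ (slk j k) ((vl φ).length + j₀) = 2 ^ (vl φ).length - 1 := by
      rw [Finset.sum_eq_single_of_mem j₀ (Finset.mem_range.2 (by omega)), ← sum_two_pow]
      · refine Finset.sum_congr rfl fun k hk => ?_
        rw [dg_slk φ _ _ _ (Finset.mem_range.1 hk), if_pos rfl]
      · intro j _ hj
        refine Finset.sum_eq_zero fun k hk => ?_
        rw [dg_slk φ _ _ _ (Finset.mem_range.1 hk), if_neg (by omega)]
    have h2 : ∑ v ∈ vars φ, (dg φ (lit v true) ((vl φ).length + j₀) +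
        dg φ (lit v false) ((vl φ).length + j₀)) ≤ 2 * (vl φ).length := by
      have hc : 2 * (vl φ).length = ∑ v ∈ vars φ, 2 := by
        rw [Finset.sum_const, card_vars, smul_eq_mul, mul_comm]
      rw [hc]
      refine Finset.sum_le_sum fun v _ => ?_
      rw [dg_lit, dg_lit]
      have := Bool.toNat_le (bif decide ((vl φ).length + j₀ < (vl φ).length) then
        decide ((vl φ).getD ((vl φ).length + j₀) 0 = v)
        else decide ((true, v) ∈ φ.getD ((vl φ).length + j₀ - (vl φ).length) []))
      have := Bool.toNat_le (bif decide ((vl φ).length + j₀ < (vl φ).length) then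
        decide ((vl φ).getD ((vl φ).length + j₀) 0 = v)
        else decide ((false, v) ∈ φ.getD ((vl φ).length + j₀ - (vl φ).length) []))
      omega
    rw [h1]
    unfold tg
    rw [if_neg h]
    have h3 := two_mul_le (vl φ).length
    have h4 : 1 ≤ 2 ^ (vl φ).length := Nat.one_le_two_pow
    omega

theorem tg_le (p : ℕ) : 2 * tg φ p < 2 ^ ((vl φ).length + 3) := by
  unfold tg
  rw [pow_add]
  have h4 : 1 ≤ 2 ^ (vl φ).length := Nat.one_le_two_pow
  split_ifs <;> omega

theorem sum_num_le : ((its φ).map (num φ)).sum ≤ 2 * tgt φ := by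
  have h1 : ((its φ).map (num φ)).sum = ∑ p ∈ Finset.range ((vl φ).length + φ.length),
      ((its φ).map (fun i => dg φ i p)).sum * (2 ^ ((vl φ).length + 3)) ^ p := by
    rw [← List.sum_toFinset _ (its_nodup φ)]
    simp only [num_eq]
    rw [Finset.sum_comm]
    refine Finset.sum_congr rfl fun p _ => ?_
    rw [← List.sum_toFinset _ (its_nodup φ), Finset.sum_mul]
  rw [h1, tgt_eq, Finset.mul_sum]
  refine Finset.sum_le_sum fun p hp => ?_
  rw [← mul_assoc]
  exact Nat.mul_le_mul_right _ (total_digit φ (Finset.mem_range.1 hp))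

theorem num_pos {i : It} (hi : i ∈ its φ) : 0 < num φ i := by
  rw [num_eq]
  have key : ∃ p < (vl φ).length + φ.length, 0 < dg φ i p := by
    rcases (mem_its φ).1 hi with ⟨v, hv, b, rfl⟩ | ⟨j, hj, k, hk, rfl⟩
    · rw [← vl_toFinset, List.mem_toFinset] at hv
      obtain ⟨p, hp, hpv⟩ := List.getElem_of_mem hv
      refine ⟨p, by omega, ?_⟩
      rw [dg_lit, List.getD_eq_getElem _ _ hp, hpv]
      simp [hp]
    · refine ⟨(vl φ).length + j, by omega, ?_⟩
      rw [dg_slk φ _ _ _ hk, if_pos rfl]
      positivity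
  obtain ⟨p, hp, h⟩ := key
  refine lt_of_lt_of_le ?_ (Finset.single_le_sum (f := fun p => dg φ i p *
    (2 ^ ((vl φ).length + 3)) ^ p) (fun _ _ => Nat.zero_le _) (Finset.mem_range.2 hp))
  positivity

/-- the digit condition -/
theorem sum_eq_tgt_iff {S : Finset It} (hS : S ⊆ (its φ).toFinset) :
    ∑ i ∈ S, num φ i = tgt φ ↔
      ∀ p < (vl φ).length + φ.length, ∑ i ∈ S, dg φ i p = tg φ p := by
  have h1 : ∑ i ∈ S, num φ i = ∑ p ∈ Finset.range ((vl φ).length + φ.length),
      (∑ i ∈ S, dg φ i p) * (2 ^ ((vl φ).length + 3)) ^ p := by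
    simp only [num_eq]
    rw [Finset.sum_comm]
    refine Finset.sum_congr rfl fun p _ => ?_
    rw [Finset.sum_mul]
  rw [h1, tgt_eq]
  constructor
  · intro h
    refine digits_unique _ _ (by positivity) _ _ (fun p hp => ?_) (fun p hp => ?_) h
    · refine lt_of_le_of_lt ?_ (tg_le φ p)
      refine le_trans ?_ (total_digit φ hp)
      rw [← List.sum_toFinset _ (its_nodup φ)]
      exact Finset.sum_le_sum_of_subset hS
    · have := tg_le φ p
      omega
  · intro h
    exact Finset.sum_congr rfl fun p hp => by rw [h p (Finset.mem_range.1 hp)]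

/-- the number of literals of clause `j` satisfied by `A` -/
def cc (A : Finset ℕ) (j : ℕ) : ℕ :=
  ((vars φ).filter (fun v => (decide (v ∈ A), v) ∈ φ.getD j [])).card

theorem cc_le (A : Finset ℕ) (j : ℕ) : cc φ A j ≤ 2 ^ (vl φ).length := by
  unfold cc
  refine (Finset.card_filter_le _ _).trans ?_
  rw [card_vars]
  exact Nat.lt_two_pow_self.le

/-- the digits of a set of items given by an assignment -/
theorem digits_of {S : Finset It} (hS : S ⊆ (its φ).toFinset) (A : Finset ℕ)
    (hA : ∀ v ∈ vars φ, ∀ b, lit v b ∈ S ↔ decide (v ∈ A) = b) :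
    (∀ p < (vl φ).length, ∑ i ∈ S, dg φ i p = 1) ∧
    ∀ j < φ.length, ∑ i ∈ S, dg φ i ((vl φ).length + j) = cc φ A j +
      ∑ k ∈ Finset.range (vl φ).length, (decide (slk j k ∈ S)).toNat * 2 ^ k := by
  constructor
  · intro p hp
    rw [sum_sub φ hS]
    have h1 : ∑ j ∈ Finset.range φ.length, ∑ k ∈ Finset.range (vl φ).length,
        (if slk j k ∈ S then dg φ (slk j k) p else 0) = 0 := by
      refine Finset.sum_eq_zero fun j _ => Finset.sum_eq_zero fun k hk => ?_
      rw [dg_slk φ _ _ _ (Finset.mem_range.1 hk), if_neg (show ¬ p = (vl φ).length + j by omega)]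
      simp
    rw [h1, add_zero]
    rw [← ind_var φ hp (fun _ => 1)]
    refine Finset.sum_congr rfl fun v hv => ?_
    rw [dg_lit, dg_lit]
    simp only [hp, decide_true, cond_true, hA v hv]
    cases decide (v ∈ A) <;> simp
  · intro j hj
    rw [sum_sub φ hS]
    congr 1
    · unfold cc
      rw [Finset.card_filter]
      refine Finset.sum_congr rfl fun v hv => ?_
      rw [dg_lit, dg_lit]
      simp only [Nat.not_lt.2 (Nat.le_add_right _ _), decide_false, cond_false,
        Nat.add_sub_cancel_left, hA v hv]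
      by_cases hvA : v ∈ A
      · by_cases h1 : (true, v) ∈ φ.getD j [] <;> simp only [hvA, h1, decide_true, decide_false,
          Bool.toNat_true, Bool.toNat_false, if_true, if_false, reduceCtorEq, add_zero, if_pos rfl]
      · by_cases h1 : (false, v) ∈ φ.getD j [] <;> simp only [hvA, h1, decide_true, decide_false,
          Bool.toNat_true, Bool.toNat_false, if_true, if_false, reduceCtorEq, zero_add, if_pos rfl]
    · rw [Finset.sum_eq_single_of_mem j (Finset.mem_range.2 hj)]
      · refine Finset.sum_congr rfl fun k hk => ?_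
        rw [dg_slk φ _ _ _ (Finset.mem_range.1 hk), if_pos rfl]
        by_cases h : slk j k ∈ S <;> simp [h]
      · intro j' _ hj'
        refine Finset.sum_eq_zero fun k hk => ?_
        rw [dg_slk φ _ _ _ (Finset.mem_range.1 hk),
          if_neg (show ¬ (vl φ).length + j = (vl φ).length + j' by omega)]
        simp

end Pool.Agent.H269.RT
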